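import Pool.Agent.Lib.MP_d81877_alC.Hyp
import Pool.Agent.Lib.MP_d81877_alG.NonCross
import Pool.Agent.Lib.MP_d81877_alP.Defs

/-!
# MP_d81877_al, part D, near values: the bridge between `nf` and the model `Z`

* `pm_trace`: the functional `nu V X m` is a coordinate of `pm V`.
* `nf_nc`: along a non-crossing list of pairs, `nf` is the same coordinate of the iterated
  contraction of `pm V u` in `Z`, provided that the adjacent contractions correspond (`HypT2a`).
-/

namespace D81877N

open Finset Function D81877C D81877G MP_d81877_alI MP_d81877_alP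

set_option linter.unusedSectionVars false

variable {ι : Type*} [LinearOrder ι] {K : Type*} [Field K]

/-- the contraction of two adjacent sites in the model -/
def con (i k : ι) (z : D81877ZF.Z ι K) : D81877ZF.Z ι K := fun A B =>
  z (insert k A) (insert k B) + z (insert i A) (insert i B) +
    z (insert i (insert k A)) B + z (insert i A) (insert k B) + z (insert k A) (insert i B)

/-- the iterated contraction -/
def conl : List (ι × ι) → D81877ZF.Z ι K → D81877ZF.Z ι K
  | [], z => z
  | p :: l, z => conl l (con p.1 p.2 z)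

@[simp] theorem conl_nil (z : D81877ZF.Z ι K) : conl [] z = z := rfl

theorem conl_cons (p : ι × ι) (l : List (ι × ι)) (z : D81877ZF.Z ι K) :
    conl (p :: l) z = conl l (con p.1 p.2 z) := rfl

/-- the values of the iterated contraction only depend on the values inside the set of sites -/
theorem conl_congr {W : Finset ι} : ∀ (l : List (ι × ι)) {z z' : D81877ZF.Z ι K},
    (∀ x ∈ letters l, x ∈ W) → (∀ A B, A ⊆ W → B ⊆ W → z A B = z' A B) →
      ∀ A B, A ⊆ W → B ⊆ W → conl l z A B = conl l z' A B
  | [], _, _, _, h, A, B, hA, hB => h A B hA hB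
  | p :: l, z, z', hl, h, A, B, hA, hB => by
    simp only [letters_cons, List.mem_cons] at hl
    have h1 : p.1 ∈ W := hl _ (Or.inl rfl)
    have h2 : p.2 ∈ W := hl _ (Or.inr (Or.inl rfl))
    refine conl_congr l (fun x hx => hl x (Or.inr (Or.inr hx))) ?_ A B hA hB
    intro A B hA hB
    have i1 : ∀ {C : Finset ι}, C ⊆ W → insert p.1 C ⊆ W := fun h => insert_subset h1 h
    have i2 : ∀ {C : Finset ι}, C ⊆ W → insert p.2 C ⊆ W := fun h => insert_subset h2 h
    simp only [con]
    rw [h _ _ (i2 hA) (i2 hB), h _ _ (i1 hA) (i1 hB), h _ _ (i1 (i2 hA)) hB,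
      h _ _ (i1 hA) (i2 hB), h _ _ (i2 hA) (i1 hB)]

theorem cyc_singleton (x : ι) : cyc ({x} : Finset ι) = 1 := by
  simp [cyc]

theorem wd_eq_word {N : ℕ} (V X A : Finset (Fin N)) : wd V ∅ X A A = word V X A := by
  simp [wd, word]

/-- `nu` is a coordinate of `pm`. -/
theorem pm_trace {N m : ℕ} {V X : Finset (Fin N)} (hX : X ⊆ V) {x : Fin N} (hx : x ∈ X)
    {v : Tup N → K} (hv : Supp V m v) : pm V v (X.erase x) {x} = nu V X m v := by
  have h1 : ({x} : Finset (Fin N)) \ X.erase x = {x} := by
    ext y; simp only [mem_sdiff, mem_singleton, mem_erase]; tauto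
  have h2 : X.erase x ∪ {x} = X := by
    ext y; simp only [mem_union, mem_singleton, mem_erase]
    constructor
    · rintro (h | rfl)
      · exact h.2
      · exact hx
    · intro h
      by_cases hy : y = x
      · exact Or.inr hy
      · exact Or.inl ⟨hy, h⟩
  have h3 : X.erase x ∩ {x} = ∅ := by
    ext y; simp
  have h4 : X.erase x \ {x} = X.erase x := by
    ext y; simp only [mem_sdiff, mem_singleton, mem_erase]; tauto
  unfold pm
  rw [if_neg (by rw [h1, h2]; simp [hX]), h1, h3, h4, h2, cyc_singleton]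
  unfold MP_d81877_alP.hh D81877C.nu
  have h5 : ∀ I ∈ X.powerset, v (wd V ∅ X I (X.filter fun y => (1 : Equiv.Perm (Fin N)) y ∈ I)) =
      v (word V X I) := by
    intro I hI
    have h6 : (X.filter fun y => (1 : Equiv.Perm (Fin N)) y ∈ I) = I := by
      ext y
      rw [Finset.mem_filter, Equiv.Perm.one_apply]
      exact ⟨fun h => h.2, fun h => ⟨mem_powerset.1 hI h, h⟩⟩
    rw [h6, wd_eq_word]
  rw [sum_congr rfl h5]
  symm
  refine sum_subset (fun I hI => mem_powerset.2 (mem_powersetCard.1 hI).1) ?_
  intro I hI hI'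
  by_contra hne
  have h6 := (hv _ hne)
  have h7 : I.card = m := by
    have := h6.2.2.2.2
    simpa [word] using this
  exact hI' (mem_powersetCard.2 ⟨mem_powerset.1 hI, h7⟩)

/-- Input: for primitive vectors, the contraction of adjacent sites corresponds to `con`. -/
def HypT2a (ι K : Type*) [LinearOrder ι] [Field K] : Prop :=
  ∀ (W : Finset ι) (b : ℕ) (v : WW ι K), 1 ≤ b → Dm W b v → ∀ i k : ι, Adj W i k →
    ∀ A B : Finset ι, A ⊆ (W.erase i).erase k → B ⊆ (W.erase i).erase k →
      pm ((W.erase i).erase k) (ctr i k v) A B = con i k (pm W v) A B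

section

variable {N : ℕ}

theorem rest_eq (V : Finset (Fin N)) (l : List (Fin N × Fin N)) :
    D81877G.rest V l = V \ (letters l).toFinset := by
  ext x
  simp [D81877G.mem_rest]

theorem erase_erase_eq (V : Finset (Fin N)) (a b : Fin N) :
    (V.erase a).erase b = V \ {a, b} := by
  ext x
  simp only [mem_erase, mem_sdiff, mem_insert, mem_singleton, not_or]
  tauto

variable [CharP K 2]

/-- The map `pm` intertwines the contractions along a non-crossing list. -/
theorem pm_cmul (HT : HypT2a (Fin N) K) (m : ℕ) :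
    ∀ (l : List (Fin N × Fin N)) (V : Finset (Fin N)) (u : Tup N → K), NC V l →
      Dm V (m + l.length) u → ∀ A B : Finset (Fin N), A ⊆ D81877G.rest V l →
        B ⊆ D81877G.rest V l → pm (D81877G.rest V l) (cmul l u) A B = conl l (pm V u) A B
  | [], V, u, _, _, A, B, _, _ => by
    rw [rest_nil, cmul_nil, conl_nil]
  | p :: l, V, u, h, hu, A, B, hA, hB => by
    obtain ⟨hp, hl⟩ := nc_cons.1 h
    obtain ⟨h1, h2, h3, h4, h5, _⟩ := good_cons.1 (show Good V ((p.1, p.2) :: l) from h.good)
    have h6 : cmul (p :: l) u = cmul l (cc 2 p.1 p.2 u) := by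
      rw [cmul_cons, cmul_cc 2 u l h4 h5]
    obtain ⟨hs, hpr⟩ := dm_iff.1 hu
    have h7 : Dm ((V.erase p.1).erase p.2) (m + l.length) (cc 2 p.1 p.2 u) := by
      rw [erase_erase_eq]
      refine dm_iff.2 ⟨?_, Primitive.cc hpr 2 h3⟩
      have : m + (p :: l).length = m + l.length + 1 := by simp; omega
      rw [this] at hs
      exact hs.cc 2 h1 h2 h3
    rw [rest_cons] at hA hB ⊢
    rw [h6, pm_cmul HT m l _ _ hl h7 A B hA hB, conl_cons]
    have h8 : ∀ {C : Finset (Fin N)}, C ⊆ D81877G.rest ((V.erase p.1).erase p.2) l →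
        C ⊆ (V.erase p.1).erase p.2 := fun h => h.trans (filter_subset _ _)
    refine conl_congr l hl.good.2 ?_ A B (h8 hA) (h8 hB)
    intro A B hA hB
    rw [← ctr_eq h3]
    exact HT V _ u (by simp; omega) hu _ _ hp A B hA hB

/-- The value of `nf` on a non-crossing list, read off in the model. -/
theorem nf_nc (HT : HypT2a (Fin N) K) {V : Finset (Fin N)} {m : ℕ} {u : Tup N → K}
    {l : List (Fin N × Fin N)} (hE : Even V.card) (hV : 4 * (m + l.length) + 4 ≤ V.card)
    (hu : InR V (m + l.length) u) (hl : NC V l) {X : Finset (Fin N)}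
    (hX : X ⊆ D81877G.rest V l) (hXc : X.card = 2 * m + 1) {x : Fin N} (hx : x ∈ X) :
    nf V m u l = conl l (pm V u) (X.erase x) {x} := by
  rw [nf_eq hypN hE hV hu hl.good rfl (by rwa [← rest_eq]) hXc, ← rest_eq,
    ← pm_trace hX hx (by rw [rest_eq]; exact (cmul_InR m l u hl.good hu).supp)]
  exact pm_cmul HT m l V u hl (rm_iff.2 hu).dm _ _ ((erase_subset _ _).trans hX)
    (singleton_subset_iff.2 (hX hx))

end

end D81877N
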