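import Pool.Agent.Lib.MP_d81877_alZF.Orth
import Pool.Agent.Lib.MP_d81877_alZ.Defs

/-!
# MP_d81877_al, part D, [N]: the change of coordinates and adjacent contractions

`MM V` is the substitution `θ_x = ε_x + Σ_{y ∈ V, y > x} f_y + pos_V(x) f_x`: a function of the
plain coordinates `θ_x, f_x` becomes a function of `ε_x, f_x`.

* `MM V` commutes with all `f x`, `d x`, hence with `D`, `e`, `T`;
* `cz_MM` : the contraction of two neighbours has the same formula in both coordinates;
* `MM_apply_single` : the trace functional has the same formula on `ker D`.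
-/

namespace D81877N

open Finset D81877ZF D81877Z

variable {ι : Type*} [LinearOrder ι] {K : Type*} [Field K]

/-- `θ_x - ε_x` -/
def phi (V : Finset ι) (x : ι) : Module.End K (Z ι K) :=
  (∑ y ∈ V.filter (fun y => x < y), f y) + ((V.filter (fun y => y < x)).card : K) • f x

/-- the substitution at one site -/
def fac (V : Finset ι) (x : ι) : Module.End K (Z ι K) := 1 + phi V x * d x

theorem phi_comm_f (V : Finset ι) (x y : ι) :
    Commute (phi V x : Module.End K (Z ι K)) (f y) := by
  unfold phi
  refine Commute.add_left ?_ ((f_comm x y).smul_left _)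
  exact Commute.sum_left _ _ _ fun z _ => f_comm z y

theorem phi_comm_d (V : Finset ι) (x y : ι) :
    Commute (phi V x : Module.End K (Z ι K)) (d y) := by
  unfold phi
  refine Commute.add_left ?_ ((f_d_comm x y).smul_left _)
  exact Commute.sum_left _ _ _ fun z _ => f_d_comm z y

theorem comm_phi {a : Module.End K (Z ι K)} (ha : ∀ y, Commute a (f y)) (V : Finset ι) (x : ι) :
    Commute a (phi V x) := by
  unfold phi
  refine Commute.add_right ?_ ((ha x).smul_right _)
  exact Commute.sum_right _ _ _ fun z _ => ha z

theorem comm_fac {a : Module.End K (Z ι K)} (ha : ∀ y, Commute a (f y))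
    (ha' : ∀ y, Commute a (d y)) (V : Finset ι) (x : ι) : Commute a (fac V x) := by
  unfold fac
  exact (Commute.one_right a).add_right ((comm_phi ha V x).mul_right (ha' x))

theorem fac_comm_f (V : Finset ι) (x y : ι) :
    Commute (fac V x : Module.End K (Z ι K)) (f y) :=
  (comm_fac (fun z => f_comm y z) (fun z => f_d_comm y z) V x).symm

theorem fac_comm_d (V : Finset ι) (x y : ι) :
    Commute (fac V x : Module.End K (Z ι K)) (d y) :=
  (comm_fac (fun z => (f_d_comm z y).symm) (fun z => d_comm y z) V x).symm

theorem fac_comm (V W : Finset ι) (x y : ι) :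
    Commute (fac V x : Module.End K (Z ι K)) (fac W y) :=
  comm_fac (fac_comm_f V x) (fac_comm_d V x) W y

/-- the product of the substitutions at the sites of `s` -/
def Pf (V s : Finset ι) : Module.End K (Z ι K) :=
  s.noncommProd (fac V) (fun a _ b _ _ => fac_comm V V a b)

/-- the substitution `θ_x = ε_x + Σ_{y ∈ V, y > x} f_y + pos_V(x) f_x` -/
def MM (V : Finset ι) : Module.End K (Z ι K) := Pf V V

theorem Pf_empty (V : Finset ι) : (Pf V ∅ : Module.End K (Z ι K)) = 1 := by
  unfold Pf; exact noncommProd_empty _ _

theorem Pf_insert (V : Finset ι) {s : Finset ι} {x : ι} (hx : x ∉ s) :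
    (Pf V (insert x s) : Module.End K (Z ι K)) = fac V x * Pf V s := by
  unfold Pf; exact noncommProd_insert_of_notMem _ _ _ _ hx

theorem comm_Pf {a : Module.End K (Z ι K)} (ha : ∀ y, Commute a (f y))
    (ha' : ∀ y, Commute a (d y)) (V s : Finset ι) : Commute a (Pf V s) := by
  induction s using Finset.induction_on with
  | empty => rw [Pf_empty]; exact Commute.one_right a
  | insert x s hx ih => rw [Pf_insert V hx]; exact (comm_fac ha ha' V x).mul_right ih

/-- everything that commutes with all `f y`, `d y` commutes with `MM V` -/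
theorem comm_MM {a : Module.End K (Z ι K)} (ha : ∀ y, Commute a (f y))
    (ha' : ∀ y, Commute a (d y)) (V : Finset ι) : Commute a (MM V) := comm_Pf ha ha' V V

theorem f_MM (V : Finset ι) (x : ι) : Commute (f x : Module.End K (Z ι K)) (MM V) :=
  comm_MM (fun y => f_comm x y) (fun y => f_d_comm x y) V

theorem d_MM (V : Finset ι) (x : ι) : Commute (d x : Module.End K (Z ι K)) (MM V) :=
  comm_MM (fun y => (f_d_comm y x).symm) (fun y => d_comm x y) V

theorem T_MM (V : Finset ι) (i j : ι) : Commute (T i j : Module.End K (Z ι K)) (MM V) :=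
  comm_MM (fun y => (f_T y i j).symm) (fun y => (d_T y i j).symm) V

theorem D_MM (V W : Finset ι) : Commute (D W : Module.End K (Z ι K)) (MM V) := by
  unfold D
  exact Commute.sum_left _ _ _ fun x _ => (f_MM V x).mul_left (d_MM V x)

theorem e_MM (V W : Finset ι) : Commute (e W : Module.End K (Z ι K)) (MM V) := by
  unfold e
  exact Commute.sum_left _ _ _ fun x _ => d_MM V x

/-! ### adjacent contraction -/

section contraction

variable [CharP K 2]

/-- the contraction of two neighbours -/
def cadj (x y : ι) : Module.End K (Z ι K) :=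
  off x y * ((d x + d y) * (g x + g y) + d x * d y)

theorem off_f_left (x y : ι) : (off x y : Module.End K (Z ι K)) * f x = 0 := by
  ext u A B
  simp only [Module.End.mul_apply, off_apply, f_apply, LinearMap.zero_apply, Pi.zero_apply]
  split_ifs <;> simp_all

theorem off_f_right (x y : ι) : (off x y : Module.End K (Z ι K)) * f y = 0 := by
  ext u A B
  simp only [Module.End.mul_apply, off_apply, f_apply, LinearMap.zero_apply, Pi.zero_apply]
  split_ifs <;> simp_all

theorem off_comm_f {x y z : ι} (hx : z ≠ x) (hy : z ≠ y) :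
    Commute (off x y : Module.End K (Z ι K)) (f z) := by
  ext u A B
  simp only [Module.End.mul_apply, off_apply, f_apply, mem_erase]
  by_cases hz : z ∈ B <;> simp [hz, hx.symm, hy.symm]

theorem off_comm_d {x y z : ι} (hx : z ≠ x) (hy : z ≠ y) :
    Commute (off x y : Module.End K (Z ι K)) (d z) := by
  ext u A B
  simp only [Module.End.mul_apply, off_apply, d_apply, mem_insert]
  by_cases hz : z ∈ A <;> simp [hz, hx.symm, hy.symm]

theorem gg_ff (x y : ι) (hxy : x ≠ y) :
    (g x + g y : Module.End K (Z ι K)) * (f x + f y) = (f x + f y) * (g x + g y) := by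
  have h1 := g_f_same (K := K) x
  have h2 := g_f_same (K := K) y
  have h3 := (g_f_comm (K := K) hxy).eq
  have h4 := (g_f_comm (K := K) (Ne.symm hxy)).eq
  have h5 : (g x : Module.End K (Z ι K)) * f x = 1 + f x * g x := by
    rw [← h1, add_assoc, end_add_self, add_zero]
  have h6 : (g y : Module.End K (Z ι K)) * f y = 1 + f y * g y := by
    rw [← h2, add_assoc, end_add_self, add_zero]
  have h7 : (1 : Module.End K (Z ι K)) + 1 = 0 := end_add_self 1
  calc (g x + g y : Module.End K (Z ι K)) * (f x + f y)
      = g x * f x + g x * f y + (g y * f x + g y * f y) := by noncomm_ring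
    _ = (1 + 1) + (f x + f y) * (g x + g y) := by rw [h5, h6, h3, h4]; noncomm_ring
    _ = (f x + f y) * (g x + g y) := by rw [h7, zero_add]

theorem cadj_ff {x y : ι} (hxy : x ≠ y) :
    (cadj x y : Module.End K (Z ι K)) * (f x + f y) = 0 := by
  have h1 := gg_ff (K := K) x y hxy
  have hd : ((d x + d y) : Module.End K (Z ι K)) * (f x + f y) = (f x + f y) * (d x + d y) := by
    have a1 := (f_d_comm (K := K) x x).eq
    have a2 := (f_d_comm (K := K) x y).eq
    have a3 := (f_d_comm (K := K) y x).eq
    have a4 := (f_d_comm (K := K) y y).eq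
    simp only [mul_add, add_mul, a1, a2, a3, a4]
    abel
  have hdd : (d x * d y : Module.End K (Z ι K)) * (f x + f y) = (f x + f y) * (d x * d y) := by
    have a1 := (f_d_comm (K := K) x x).eq
    have a2 := (f_d_comm (K := K) x y).eq
    have a3 := (f_d_comm (K := K) y x).eq
    have a4 := (f_d_comm (K := K) y y).eq
    rw [mul_add, add_mul, mul_assoc, ← a2, ← mul_assoc, ← a1, mul_assoc, mul_assoc (d x), ← a4,
      ← mul_assoc (d x), ← a3, mul_assoc (f y)]
  have hoff : (off x y : Module.End K (Z ι K)) * (f x + f y) = 0 := by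
    rw [mul_add, off_f_left, off_f_right, add_zero]
  have key : ((d x + d y) * (g x + g y) + d x * d y : Module.End K (Z ι K)) * (f x + f y)
      = (f x + f y) * ((d x + d y) * (g x + g y) + d x * d y) := by
    rw [add_mul, hdd, mul_assoc, h1, ← mul_assoc, hd, mul_assoc, ← mul_add]
  unfold cadj
  rw [mul_assoc, key, ← mul_assoc, hoff, zero_mul]

theorem cadj_dd (x y : ι) : (cadj x y : Module.End K (Z ι K)) * (d x + d y) = 0 := by
  have a1 := (g_d_comm (K := K) x x).eq
  have a2 := (g_d_comm (K := K) x y).eq
  have a3 := (g_d_comm (K := K) y x).eq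
  have a4 := (g_d_comm (K := K) y y).eq
  have hs : (d x + d y : Module.End K (Z ι K)) * (d x + d y) = 0 := by
    have h1 := d_sq (K := K) x
    have h2 := d_sq (K := K) y
    have h3 := (d_comm (K := K) x y).eq
    simp only [mul_add, add_mul, h1, h2, h3, zero_add, add_zero]
    exact end_add_self _
  have hg : (g x + g y : Module.End K (Z ι K)) * (d x + d y) = (d x + d y) * (g x + g y) := by
    simp only [mul_add, add_mul, a1, a2, a3, a4]
    abel
  have hdd : (d x * d y : Module.End K (Z ι K)) * (d x + d y) = 0 := by
    rw [mul_add, mul_assoc, mul_assoc, d_sq, mul_zero, add_zero, ← (d_comm x y).eq, ← mul_assoc,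
      d_sq, zero_mul]
  have key : ((d x + d y) * (g x + g y) + d x * d y : Module.End K (Z ι K)) * (d x + d y) = 0 := by
    rw [add_mul, hdd, mul_assoc, hg, ← mul_assoc, hs, zero_mul, add_zero]
  unfold cadj
  rw [mul_assoc, key, mul_zero]

/-- `cadj f_x = off (d_x + d_y)` -/
theorem cadj_f_left {x y : ι} (hxy : x ≠ y) :
    (cadj x y : Module.End K (Z ι K)) * f x = off x y * (d x + d y) := by
  have h1 := g_f_same (K := K) x
  have h5 : (g x : Module.End K (Z ι K)) * f x = 1 + f x * g x := by
    rw [← h1, add_assoc, end_add_self, add_zero]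
  have h4 := (g_f_comm (K := K) (Ne.symm hxy)).eq
  have a1 := (f_d_comm (K := K) x x).eq
  have a2 := (f_d_comm (K := K) x y).eq
  have hg : (g x + g y : Module.End K (Z ι K)) * f x = 1 + f x * (g x + g y) := by
    rw [add_mul, h5, h4]; noncomm_ring
  have hd : (d x + d y : Module.End K (Z ι K)) * f x = f x * (d x + d y) := by
    rw [add_mul, mul_add, a1, a2]
  have hdd : (d x * d y : Module.End K (Z ι K)) * f x = f x * (d x * d y) := by
    rw [mul_assoc, ← a2, ← mul_assoc, ← a1, mul_assoc]
  have key : ((d x + d y) * (g x + g y) + d x * d y : Module.End K (Z ι K)) * f x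
      = (d x + d y) + f x * ((d x + d y) * (g x + g y) + d x * d y) := by
    rw [add_mul, hdd, mul_assoc, hg, mul_add, mul_one, ← mul_assoc, hd]
    noncomm_ring
  unfold cadj
  rw [mul_assoc, key, mul_add, ← mul_assoc (off x y) (f x), off_f_left, zero_mul, add_zero]

theorem cadj_f_right {x y : ι} (hxy : x ≠ y) :
    (cadj x y : Module.End K (Z ι K)) * f y = off x y * (d x + d y) := by
  have h := cadj_ff (K := K) hxy
  rw [mul_add, cadj_f_left hxy] at h
  have : (cadj x y : Module.End K (Z ι K)) * f y
      = (off x y * (d x + d y) + cadj x y * f y) + off x y * (d x + d y) := by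
    rw [add_comm (off x y * (d x + d y)), add_assoc, end_add_self, add_zero]
  rw [this, h, zero_add]

theorem cadj_comm_f {x y z : ι} (hx : z ≠ x) (hy : z ≠ y) :
    Commute (cadj x y : Module.End K (Z ι K)) (f z) := by
  unfold cadj
  refine (off_comm_f hx hy).mul_left (Commute.add_left (Commute.mul_left ?_ ?_)
    (Commute.mul_left (f_d_comm z x).symm (f_d_comm z y).symm))
  · exact (f_d_comm z x).symm.add_left (f_d_comm z y).symm
  · exact (g_f_comm hx.symm).add_left (g_f_comm hy.symm)

theorem cadj_comm_d {x y z : ι} (hx : z ≠ x) (hy : z ≠ y) :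
    Commute (cadj x y : Module.End K (Z ι K)) (d z) := by
  unfold cadj
  refine (off_comm_d hx hy).mul_left (Commute.add_left (Commute.mul_left ?_ ?_)
    (Commute.mul_left (d_comm x z) (d_comm y z)))
  · exact (d_comm x z).add_left (d_comm y z)
  · exact (g_d_comm x z).add_left (g_d_comm y z)

/-- the sites `x < y` are neighbours in `V` -/
structure Nb (V : Finset ι) (x y : ι) : Prop where
  hx : x ∈ V
  hy : y ∈ V
  lt : x < y
  adj : ∀ z ∈ V, ¬ (x < z ∧ z < y)

theorem Nb.ne {V : Finset ι} {x y : ι} (h : Nb V x y) : x ≠ y := ne_of_lt h.lt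

theorem Nb.bset {V : Finset ι} {x y : ι} (h : Nb V x y) : bset V x y = ∅ := by
  ext z
  simp only [mem_bset, notMem_empty, iff_false, not_and]
  intro hz
  rintro (h1 | h1)
  · exact h.adj z hz h1
  · exact absurd (h1.1.trans h1.2) (not_lt.2 h.lt.le)

omit [CharP K 2] in
theorem cz_eq_cadj {V : Finset ι} {x y : ι} (h : Nb V x y) :
    (cz V x y : Module.End K (Z ι K)) = cadj x y := by
  unfold cz cadj
  rw [btw_of_adj h.bset, add_zero, mul_one]

theorem sum_f_sq (s : Finset ι) :
    (∑ z ∈ s, (f z : Module.End K (Z ι K))) * ∑ z ∈ s, f z = 0 := by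
  induction s using Finset.induction_on with
  | empty => simp
  | insert a s ha ih =>
    rw [sum_insert ha]
    have hc : Commute (f a : Module.End K (Z ι K)) (∑ z ∈ s, f z) :=
      Commute.sum_right _ _ _ fun z _ => f_comm a z
    rw [mul_add, add_mul, add_mul, ih, f_sq, hc.eq]
    rw [zero_add, add_zero, end_add_self]

/-- the two local factors are absorbed by the contraction -/
theorem cadj_fac_fac {V : Finset ι} {x y : ι} (h : Nb V x y) :
    (cadj x y : Module.End K (Z ι K)) * (fac V x * fac V y) = cadj x y := by
  have hxy := h.ne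
  set W : Module.End K (Z ι K) := ∑ z ∈ V.filter (fun z => y < z), f z with hW
  set p : K := ((V.filter (fun z => z < x)).card : K) with hp
  have hfilx : V.filter (fun z => x < z) = insert y (V.filter (fun z => y < z)) := by
    ext z
    simp only [mem_filter, mem_insert]
    constructor
    · rintro ⟨hz, h1⟩
      rcases lt_trichotomy z y with h2 | h2 | h2
      · exact absurd ⟨h1, h2⟩ (h.adj z hz)
      · exact Or.inl h2
      · exact Or.inr ⟨hz, h2⟩
    · rintro (rfl | ⟨hz, h1⟩)
      · exact ⟨h.hy, h.lt⟩
      · exact ⟨hz, h.lt.trans h1⟩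
  have hfily : V.filter (fun z => z < y) = insert x (V.filter (fun z => z < x)) := by
    ext z
    simp only [mem_filter, mem_insert]
    constructor
    · rintro ⟨hz, h1⟩
      rcases lt_trichotomy z x with h2 | h2 | h2
      · exact Or.inr ⟨hz, h2⟩
      · exact Or.inl h2
      · exact absurd ⟨h2, h1⟩ (h.adj z hz)
    · rintro (rfl | ⟨hz, h1⟩)
      · exact ⟨h.hx, h.lt⟩
      · exact ⟨hz, h1.trans h.lt⟩
  have hphx : (phi V x : Module.End K (Z ι K)) = f y + W + p • f x := by
    unfold phi
    rw [hfilx, sum_insert (by simp)]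
  have hphy : (phi V y : Module.End K (Z ι K)) = W + (p + 1) • f y := by
    unfold phi
    rw [hfily, card_insert_of_notMem (by simp)]
    push_cast
    rfl
  have hpp : p * (p + 1) = 0 := by
    have h1 : ((V.filter (fun z => z < x)).card : K) = 0 ∨ ((V.filter (fun z => z < x)).card : K) = 1 := by
      rcases Nat.even_or_odd (V.filter (fun z => z < x)).card with h2 | h2
      · left
        obtain ⟨k, hk⟩ := h2
        rw [hk]; push_cast
        exact CharTwo.add_self_eq_zero _
      · right
        obtain ⟨k, hk⟩ := h2
        rw [hk]; push_cast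
        rw [two_mul, CharTwo.add_self_eq_zero, zero_add]
    rcases h1 with h1 | h1
    · rw [hp, h1, zero_mul]
    · rw [hp, h1]
      have : (1 : K) + 1 = 0 := CharTwo.add_self_eq_zero 1
      rw [this, mul_zero]
  have hWx : ∀ z ∈ V.filter (fun z => y < z), z ≠ x ∧ z ≠ y := by
    intro z hz
    have := (mem_filter.1 hz).2
    exact ⟨ne_of_gt (h.lt.trans this), ne_of_gt this⟩
  have hQW : Commute (cadj x y : Module.End K (Z ι K)) W :=
    Commute.sum_right _ _ _ fun z hz => cadj_comm_f (hWx z hz).1 (hWx z hz).2
  have hWf : ∀ z, Commute W (f z) := fun z => Commute.sum_left _ _ _ fun w _ => f_comm w z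
  have hWd : ∀ z, Commute W (d z) := fun z => Commute.sum_left _ _ _ fun w _ => f_d_comm w z
  have hWW : W * W = 0 := sum_f_sq _
  -- linear part
  have hlin : (cadj x y : Module.End K (Z ι K)) * (phi V x * d x + phi V y * d y) = 0 := by
    have e1 : (phi V x * d x + phi V y * d y : Module.End K (Z ι K))
        = W * (d x + d y) + (f y * d x + p • (f x * d x) + (p + 1) • (f y * d y)) := by
      rw [hphx, hphy]
      simp only [add_mul, mul_add, smul_mul_assoc]
      abel
    have e2 : (cadj x y : Module.End K (Z ι K)) * (W * (d x + d y)) = 0 := by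
      rw [← mul_assoc, hQW.eq, mul_assoc, cadj_dd, mul_zero]
    have hdxx : (d x + d y : Module.End K (Z ι K)) * d x = d x * d y := by
      rw [add_mul, d_sq, zero_add, (d_comm x y).eq]
    have hdyy : (d x + d y : Module.End K (Z ι K)) * d y = d x * d y := by
      rw [add_mul, d_sq, add_zero]
    have e3 : (cadj x y : Module.End K (Z ι K)) * (f y * d x) = off x y * (d x * d y) := by
      rw [← mul_assoc, cadj_f_right hxy, mul_assoc, hdxx]
    have e4 : (cadj x y : Module.End K (Z ι K)) * (f x * d x) = off x y * (d x * d y) := by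
      rw [← mul_assoc, cadj_f_left hxy, mul_assoc, hdxx]
    have e5 : (cadj x y : Module.End K (Z ι K)) * (f y * d y) = off x y * (d x * d y) := by
      rw [← mul_assoc, cadj_f_right hxy, mul_assoc, hdyy]
    rw [e1, mul_add, e2, zero_add, mul_add, mul_add, mul_smul_comm, mul_smul_comm, e3, e4, e5]
    set R : Module.End K (Z ι K) := off x y * (d x * d y)
    have : R + p • R + (p + 1) • R = (1 + p + (p + 1)) • R := by
      rw [add_smul (1 + p), add_smul 1 p, one_smul]
    rw [this]
    have h0 : (1 : K) + p + (p + 1) = 0 := by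
      have : (1 : K) + p + (p + 1) = (1 + p) + (1 + p) := by ring
      rw [this]; exact CharTwo.add_self_eq_zero _
    rw [h0, zero_smul]
  -- quadratic part
  have hquad : (cadj x y : Module.End K (Z ι K)) * (phi V x * d x * (phi V y * d y)) = 0 := by
    have e1 : (phi V x * d x * (phi V y * d y) : Module.End K (Z ι K))
        = phi V x * phi V y * (d x * d y) := by
      rw [mul_assoc, ← mul_assoc (d x), ← (phi_comm_d V y x).eq, mul_assoc, ← mul_assoc,
        ← mul_assoc]
    have e2 : (phi V x * phi V y : Module.End K (Z ι K)) = (f x + f y) * (p • W) := by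
      rw [hphx, hphy]
      have c1 := (hWf x).eq
      have c2 := (hWf y).eq
      have c3 := f_sq (K := K) y
      have : (f y + W + p • f x : Module.End K (Z ι K)) * (W + (p + 1) • f y)
          = f y * W + (p + 1) • (f y * f y) + (W * W + (p + 1) • (W * f y))
            + (p • (f x * W) + (p * (p + 1)) • (f x * f y)) := by
        rw [add_mul, add_mul, mul_add, mul_add, mul_add]
        simp only [smul_mul_assoc, mul_smul_comm, smul_smul, mul_comm (p + 1) p]
      rw [this, c3, hWW, c2, hpp, zero_smul, smul_zero, add_zero, zero_add, add_zero]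
      rw [add_mul, mul_smul_comm, mul_smul_comm]
      have h2 : f y * W + (p + 1) • (f y * W) = p • (f y * W) := by
        rw [add_smul, one_smul, add_comm (p • (f y * W)), ← add_assoc, end_add_self, zero_add]
      rw [h2, add_comm]
    rw [e1, e2, ← mul_assoc (cadj x y), ← mul_assoc (cadj x y), cadj_ff hxy, zero_mul, zero_mul]
  have hexp : (fac V x * fac V y : Module.End K (Z ι K))
      = 1 + (phi V x * d x + phi V y * d y) + phi V x * d x * (phi V y * d y) := by
    unfold fac
    rw [add_mul, one_mul, mul_add, mul_one]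
    abel
  rw [hexp, mul_add, mul_add, hlin, hquad, mul_one, add_zero, add_zero]

/-- the other factors change only by a multiple of `f_x + f_y` -/
theorem cadj_fac {V : Finset ι} {x y z : ι} (h : Nb V x y) (hz : z ∈ V) (hzx : z ≠ x)
    (hzy : z ≠ y) : (cadj x y : Module.End K (Z ι K)) * fac V z
      = fac ((V.erase x).erase y) z * cadj x y := by
  have hxy := h.ne
  set V' := (V.erase x).erase y with hV'
  have hcase : (phi V z : Module.End K (Z ι K)) = phi V' z
      ∨ (phi V z : Module.End K (Z ι K)) = phi V' z + (f x + f y) := by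
    rcases lt_or_gt_of_ne hzx with h1 | h1
    · right
      have h2 : z < y := h1.trans h.lt
      have f1 : V.filter (fun w => z < w) = insert x (insert y (V'.filter (fun w => z < w))) := by
        ext w
        simp only [hV', mem_filter, mem_insert, mem_erase]
        constructor
        · rintro ⟨hw, h3⟩
          by_cases hwx : w = x
          · exact Or.inl hwx
          · by_cases hwy : w = y
            · exact Or.inr (Or.inl hwy)
            · exact Or.inr (Or.inr ⟨⟨hwy, hwx, hw⟩, h3⟩)
        · rintro (rfl | rfl | ⟨⟨_, _, hw⟩, h3⟩)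
          · exact ⟨h.hx, h1⟩
          · exact ⟨h.hy, h2⟩
          · exact ⟨hw, h3⟩
      have f2 : V.filter (fun w => w < z) = V'.filter (fun w => w < z) := by
        ext w
        simp only [hV', mem_filter, mem_erase]
        constructor
        · rintro ⟨hw, h3⟩
          exact ⟨⟨ne_of_lt (h3.trans h2), ne_of_lt (h3.trans h1), hw⟩, h3⟩
        · rintro ⟨⟨_, _, hw⟩, h3⟩
          exact ⟨hw, h3⟩
      unfold phi
      rw [f1, f2, sum_insert, sum_insert]
      · abel
      · simp [hV']
      · simp [hV', hxy]
    · left
      have h2 : y < z := by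
        rcases lt_trichotomy z y with h3 | h3 | h3
        · exact absurd ⟨h1, h3⟩ (h.adj z hz)
        · exact absurd h3 hzy
        · exact h3
      have f1 : V.filter (fun w => z < w) = V'.filter (fun w => z < w) := by
        ext w
        simp only [hV', mem_filter, mem_erase]
        constructor
        · rintro ⟨hw, h3⟩
          exact ⟨⟨ne_of_gt (h2.trans h3), ne_of_gt (h1.trans h3), hw⟩, h3⟩
        · rintro ⟨⟨_, _, hw⟩, h3⟩
          exact ⟨hw, h3⟩
      have f2 : V.filter (fun w => w < z) = insert x (insert y (V'.filter (fun w => w < z))) := by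
        ext w
        simp only [hV', mem_filter, mem_insert, mem_erase]
        constructor
        · rintro ⟨hw, h3⟩
          by_cases hwx : w = x
          · exact Or.inl hwx
          · by_cases hwy : w = y
            · exact Or.inr (Or.inl hwy)
            · exact Or.inr (Or.inr ⟨⟨hwy, hwx, hw⟩, h3⟩)
        · rintro (rfl | rfl | ⟨⟨_, _, hw⟩, h3⟩)
          · exact ⟨h.hx, h1⟩
          · exact ⟨h.hy, h2⟩
          · exact ⟨hw, h3⟩
      unfold phi
      rw [f1, f2, card_insert_of_notMem, card_insert_of_notMem]
      · push_cast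
        have : ((V'.filter (fun w => w < z)).card + 1 + 1 : K)
            = ((V'.filter (fun w => w < z)).card : K) := by
          rw [add_assoc, CharTwo.add_self_eq_zero, add_zero]
        rw [this]
      · simp [hV']
      · simp [hV', hxy]
  have hcomm : Commute (cadj x y : Module.End K (Z ι K)) (fac V' z) := by
    unfold fac phi
    refine (Commute.one_right _).add_right (Commute.mul_right (Commute.add_right ?_ ?_)
      (cadj_comm_d hzx hzy))
    · refine Commute.sum_right _ _ _ fun w hw => ?_
      have h1 := (mem_filter.1 hw).1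
      rw [hV', mem_erase, mem_erase] at h1
      exact cadj_comm_f h1.2.1 h1.1
    · exact (cadj_comm_f hzx hzy).smul_right _
  rw [← hcomm.eq]
  rcases hcase with h1 | h1
  · unfold fac; rw [h1]
  · unfold fac
    rw [h1, add_mul, ← add_assoc, mul_add, ← mul_assoc (cadj x y) (f x + f y), cadj_ff hxy,
      zero_mul, add_zero]

theorem cadj_Pf {V : Finset ι} {x y : ι} (h : Nb V x y) {s : Finset ι} (hs : s ⊆ V)
    (hxs : x ∉ s) (hys : y ∉ s) : (cadj x y : Module.End K (Z ι K)) * Pf V s
      = Pf ((V.erase x).erase y) s * cadj x y := by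
  induction s using Finset.induction_on with
  | empty => rw [Pf_empty, Pf_empty, one_mul, mul_one]
  | insert a s ha ih =>
    have h1 : a ∈ V := hs (mem_insert_self _ _)
    have h2 : a ≠ x := fun hh => hxs (hh ▸ mem_insert_self _ _)
    have h3 : a ≠ y := fun hh => hys (hh ▸ mem_insert_self _ _)
    rw [Pf_insert _ ha, Pf_insert _ ha, ← mul_assoc, cadj_fac h h1 h2 h3, mul_assoc,
      ih ((subset_insert _ _).trans hs) (fun hh => hxs (mem_insert_of_mem hh))
        (fun hh => hys (mem_insert_of_mem hh)), mul_assoc]

/-- the contraction of two neighbours commutes with the change of coordinates -/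
theorem cadj_MM {V : Finset ι} {x y : ι} (h : Nb V x y) :
    (cadj x y : Module.End K (Z ι K)) * MM V = MM ((V.erase x).erase y) * cadj x y := by
  have hxy := h.ne
  have hV : V = insert x (insert y ((V.erase x).erase y)) := by
    rw [insert_erase (mem_erase.2 ⟨hxy.symm, h.hy⟩), insert_erase h.hx]
  have hM : (MM V : Module.End K (Z ι K))
      = fac V x * fac V y * Pf V ((V.erase x).erase y) := by
    unfold MM
    conv_lhs => rw [show (Pf V V : Module.End K (Z ι K))
      = Pf V (insert x (insert y ((V.erase x).erase y))) by rw [← hV]]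
    rw [Pf_insert, Pf_insert, mul_assoc]
    · simp
    · simp [hxy]
  rw [hM, ← mul_assoc, cadj_fac_fac h, cadj_Pf h]
  · rfl
  · exact (erase_subset _ _).trans (erase_subset _ _)
  · simp
  · simp

theorem cz_MM {V : Finset ι} {x y : ι} (h : Nb V x y) (u : Z ι K) :
    cz V x y (MM V u) = MM ((V.erase x).erase y) (cz V x y u) := by
  rw [cz_eq_cadj h]
  exact LinearMap.congr_fun (cadj_MM h) u

/-- `D` commutes with the contraction of any two sites (adjacent form) -/
theorem cadj_D {V : Finset ι} {x y : ι} (hx : x ∈ V) (hy : y ∈ V) (hxy : x ≠ y) :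
    (cadj x y : Module.End K (Z ι K)) * D V = D ((V.erase x).erase y) * cadj x y := by
  have hV : V = insert x (insert y ((V.erase x).erase y)) := by
    rw [insert_erase (mem_erase.2 ⟨hxy.symm, hy⟩), insert_erase hx]
  have hD : (D V : Module.End K (Z ι K)) = f x * d x + (f y * d y + D ((V.erase x).erase y)) := by
    unfold D
    conv_lhs => rw [hV]
    rw [sum_insert (by simp [hxy]), sum_insert (by simp)]
  have hc : Commute (cadj x y : Module.End K (Z ι K)) (D ((V.erase x).erase y)) := by
    unfold D
    refine Commute.sum_right _ _ _ fun z hz => ?_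
    rw [mem_erase, mem_erase] at hz
    exact (cadj_comm_f hz.2.1 hz.1).mul_right (cadj_comm_d hz.2.1 hz.1)
  have hdxx : (d x + d y : Module.End K (Z ι K)) * d x = d x * d y := by
    rw [add_mul, d_sq, zero_add, (d_comm x y).eq]
  have hdyy : (d x + d y : Module.End K (Z ι K)) * d y = d x * d y := by
    rw [add_mul, d_sq, add_zero]
  have e4 : (cadj x y : Module.End K (Z ι K)) * (f x * d x) = off x y * (d x * d y) := by
    rw [← mul_assoc, cadj_f_left hxy, mul_assoc, hdxx]
  have e5 : (cadj x y : Module.End K (Z ι K)) * (f y * d y) = off x y * (d x * d y) := by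
    rw [← mul_assoc, cadj_f_right hxy, mul_assoc, hdyy]
  rw [hD, mul_add, mul_add, e4, e5, ← add_assoc, end_add_self, zero_add, hc.eq]

end contraction

/-! ### the trace functional -/

/-- a vector of `ker D` has no component `θ_A` with `A` nonempty -/
theorem noF_of_D {V : Finset ι} {u : Z ι K} (hu : D V u = 0) {A : Finset ι} {z : ι}
    (hz : z ∈ V) (hzA : z ∈ A) : u A ∅ = 0 := by
  have h1 := congrFun (congrFun hu (A.erase z)) {z}
  simp only [D, LinearMap.sum_apply, Finset.sum_apply, Module.End.mul_apply, f_apply, d_apply,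
    mem_singleton, Pi.zero_apply] at h1
  rw [sum_eq_single z] at h1
  · simpa [insert_erase hzA] using h1
  · intro w _ hw
    rw [if_neg hw]
  · intro h; exact absurd hz h

/-- `θ_A f_x`-components are unchanged by the substitution, for vectors without `θ_A`-components -/
theorem Pf_single {V : Finset ι} {s : Finset ι} (hs : s ⊆ V) {u : Z ι K}
    (hu : ∀ (A : Finset ι) (z : ι), z ∈ V → z ∈ A → u A ∅ = 0) :
    (∀ A, Pf V s u A ∅ = u A ∅) ∧ ∀ A x, Pf V s u A {x} = u A {x} := by
  induction s using Finset.induction_on with
  | empty => rw [Pf_empty]; exact ⟨fun _ => rfl, fun _ _ => rfl⟩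
  | insert a s ha ih =>
    obtain ⟨ih1, ih2⟩ := ih ((subset_insert _ _).trans hs)
    have haV : a ∈ V := hs (mem_insert_self _ _)
    rw [Pf_insert _ ha]
    have hphi0 : ∀ (w : Z ι K) (A : Finset ι), phi V a w A ∅ = 0 := by
      intro w A
      simp [phi, LinearMap.sum_apply, Finset.sum_apply, f_apply]
    have hphi1 : ∀ (w : Z ι K) (A : Finset ι) (x : ι), (∀ B, w A B = 0 ∨ B ≠ ∅) →
        phi V a w A {x} = 0 := by
      intro w A x hw
      have hf : ∀ z, f z w A {x} = 0 := by
        intro z
        rw [f_apply]
        split_ifs with h1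
        · rw [mem_singleton] at h1
          subst h1
          rw [erase_singleton]
          exact (hw ∅).resolve_right (fun h => h rfl)
        · rfl
      simp [phi, LinearMap.sum_apply, Finset.sum_apply, hf]
    constructor
    · intro A
      simp only [Module.End.mul_apply, fac, LinearMap.add_apply, Module.End.one_apply,
        Pi.add_apply]
      rw [hphi0, add_zero, ih1]
    · intro A x
      simp only [Module.End.mul_apply, fac, LinearMap.add_apply, Module.End.one_apply,
        Pi.add_apply]
      rw [hphi1, add_zero, ih2]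
      intro B
      by_cases hB : B = ∅
      · left
        subst hB
        rw [d_apply]
        split_ifs with h1
        · rfl
        · rw [ih1]
          exact hu _ a haV (mem_insert_self _ _)
      · exact Or.inr hB

theorem MM_single {V : Finset ι} {u : Z ι K} (hu : D V u = 0) (A : Finset ι) (x : ι) :
    MM V u A {x} = u A {x} :=
  (Pf_single (Subset.refl V) fun _ _ hz hzA => noF_of_D hu hz hzA).2 A x

end D81877N
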