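import Pool.Agent.Lib.MP_d81877_alN.Near
import Pool.Agent.Lib.MP_d81877_alZL.Link

/-!
# MP_d81877_al, part D, [N]: the near values of `D V (T_S η)` in the coordinates `ε_x, f_x`

* `MM_eta` : the change of coordinates maps `eta V m` to `etaE V m`
* `near_value` : the iterated contractions of `D V (T_S (etaE V (2 b + 1)))`
-/

namespace D81877NE

open Finset D81877ZF D81877Z D81877G

open D81877C hiding vac

open D81877ZL D81877N

set_option linter.unusedSectionVars false

variable {ι : Type*} [LinearOrder ι] {K : Type*} [Field K]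

theorem thO_eq (V : Finset ι) (x : ι) : (thO V x : Module.End K (Z ι K)) = th x + phi V x := by
  rw [thO, phi, add_assoc]

theorem fac_th_ne (V : Finset ι) {x y : ι} (h : y ≠ x) :
    Commute (fac V y : Module.End K (Z ι K)) (th x) := by
  unfold fac
  refine (Commute.one_left _).add_left (Commute.mul_left ?_ (d_th_comm h))
  exact (comm_phi (fun z => (f_th_comm z x).symm) V y).symm

theorem fac_vac (V : Finset ι) (x : ι) : fac V x (vac : Z ι K) = vac := by
  have h : d x (vac : Z ι K) = 0 := by
    funext A B
    rw [d_apply]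
    split_ifs
    · rfl
    · simp [vac]
  rw [fac, LinearMap.add_apply, Module.End.mul_apply, h, map_zero, add_zero, Module.End.one_apply]

theorem Pf_vac (V s : Finset ι) : Pf V s (vac : Z ι K) = vac := by
  induction s using Finset.induction_on with
  | empty => rw [Pf_empty]; rfl
  | insert x s hx ih => rw [Pf_insert V hx, Module.End.mul_apply, ih, fac_vac]

theorem list_vac (l : List ι) (hl : l.Nodup) :
    (((l.map th).prod : Module.End K (Z ι K)) vac : Z ι K) =
      fun A B => if A = l.toFinset ∧ B = ∅ then 1 else 0 := by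
  induction l with
  | nil => rfl
  | cons x l ih =>
    rw [List.map_cons, List.prod_cons, Module.End.mul_apply, ih (List.nodup_cons.1 hl).2]
    have hx : x ∉ l.toFinset := by simpa using (List.nodup_cons.1 hl).1
    funext A B
    rw [th_apply, List.toFinset_cons]
    by_cases hA : x ∈ A
    · rw [if_pos hA]
      have : (A.erase x = l.toFinset) ↔ A = insert x l.toFinset := by
        constructor
        · intro h; rw [← h, insert_erase hA]
        · intro h; rw [h, erase_insert hx]
      simp only [this]
    · rw [if_neg hA, if_neg]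
      rintro ⟨rfl, _⟩
      exact hA (mem_insert_self _ _)

theorem eta_eq_sum (V : Finset ι) (m : ℕ) : (eta V m : Z ι K) =
    ∑ A ∈ V.powersetCard m, ((((A.sort (· ≥ ·)).map th).prod : Module.End K (Z ι K)) vac : Z ι K) := by
  funext A B
  have h : ∀ C : Finset ι, ((((C.sort (· ≥ ·)).map th).prod : Module.End K (Z ι K)) vac : Z ι K) A B =
      if A = C then (if B = ∅ then 1 else 0) else 0 := by
    intro C
    rw [list_vac _ (C.sort_nodup _)]
    simp only [sort_toFinset, ite_and]
  rw [Finset.sum_apply, Finset.sum_apply]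
  simp only [h]
  rw [sum_ite_eq]
  unfold eta
  by_cases h1 : B = ∅ <;> by_cases h2 : A ∈ V.powersetCard m <;> simp [h1, h2]

theorem β_eq (V : Finset ι) (b : ℕ) : β K V b = D V (eta V (2 * b + 1)) := by
  funext A B
  have h : ∀ x ∈ V, (f x * d x : Module.End K (Z ι K)) (eta V (2 * b + 1)) A B =
      if x ∉ A ∧ B = {x} ∧ A ⊆ V ∧ A.card = 2 * b then 1 else 0 := by
    intro x hx
    rw [Module.End.mul_apply, f_apply, d_apply, eta]
    by_cases hA : x ∈ A
    · simp [hA]
    · have e1 : (insert x A ∈ V.powersetCard (2 * b + 1)) ↔ A ⊆ V ∧ A.card = 2 * b := by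
        rw [mem_powersetCard, card_insert_of_notMem hA, insert_subset_iff]
        constructor
        · rintro ⟨h1, h2⟩; exact ⟨h1.2, by omega⟩
        · rintro ⟨h1, h2⟩; exact ⟨⟨hx, h1⟩, by omega⟩
      by_cases hB : x ∈ B
      · have e2 : B.erase x = ∅ ↔ B = {x} := by
          rw [erase_eq_empty_iff]
          constructor
          · rintro (h | h)
            · subst h; simp at hB
            · exact h
          · intro h; exact Or.inr h
        simp only [hB, if_true, hA, if_false, e1, e2, not_false_eq_true, true_and]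
      · have e3 : B ≠ {x} := by rintro rfl; simp at hB
        simp [hB, e3]
  rw [D, LinearMap.sum_apply, Finset.sum_apply, Finset.sum_apply, sum_congr rfl h, β_apply]
  split_ifs with hc
  · obtain ⟨h1, h2, x, h3, h4, rfl⟩ := hc
    rw [sum_eq_single_of_mem x h3]
    · rw [if_pos ⟨h4, rfl, h1, h2⟩]
    · intro y _ hy
      rw [if_neg]
      rintro ⟨_, h, _⟩
      exact hy (singleton_injective h).symm
  · symm
    refine sum_eq_zero fun x hx => if_neg ?_
    rintro ⟨h1, h2, h3, h4⟩
    exact hc ⟨h3, h4, x, hx, h1, h2⟩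

theorem AA_f (a : AA ι K) (y : ι) : Commute (a.val : Module.End K (Z ι K)) (f y) :=
  congrArg Subtype.val (AA_comm a (fA K y))

theorem AA_d (a : AA ι K) (y : ι) : Commute (a.val : Module.End K (Z ι K)) (d y) :=
  congrArg Subtype.val (AA_comm a (dA K y))

theorem AA_D (a : AA ι K) (V : Finset ι) : Commute (a.val : Module.End K (Z ι K)) (D V) := by
  unfold D
  exact Commute.sum_right _ _ _ fun x _ => (AA_f a x).mul_right (AA_d a x)

theorem AA_MM (a : AA ι K) (V : Finset ι) : Commute (a.val : Module.End K (Z ι K)) (MM V) :=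
  comm_MM (AA_f a) (AA_d a) V

variable [CharP K 2]

theorem phi_sq (V : Finset ι) (x : ι) :
    (phi V x : Module.End K (Z ι K)) * phi V x = 0 := by
  unfold phi
  have h1 := sum_f_sq (K := K) (V.filter (fun y => x < y))
  have h2 : Commute (∑ y ∈ V.filter (fun y => x < y), (f y : Module.End K (Z ι K))) (f x) :=
    Commute.sum_left _ _ _ fun z _ => f_comm z x
  rw [add_mul, mul_add, mul_add, h1, zero_add, mul_smul_comm, smul_mul_assoc, h2.eq,
    smul_mul_smul_comm, f_sq, smul_zero, add_zero, ← two_smul K, CharTwo.two_eq_zero, zero_smul]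

theorem fac_th (V : Finset ι) (x : ι) :
    (fac V x : Module.End K (Z ι K)) * th x = (th x + phi V x) * fac V x := by
  unfold fac
  have h1 := phi_sq (K := K) V x
  have h2 : Commute (phi V x : Module.End K (Z ι K)) (th x) :=
    (comm_phi (fun z => (f_th_comm z x).symm) V x).symm
  have h3 : (d x : Module.End K (Z ι K)) * th x = 1 - th x * d x :=
    eq_sub_of_add_eq (d_th_same x)
  rw [add_mul, one_mul, mul_assoc, h3, add_mul, mul_add, mul_add, mul_one, mul_one,
    ← mul_assoc (phi V x), h1, zero_mul, add_zero, mul_sub, mul_one, ← mul_assoc, h2.eq,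
    mul_assoc]
  have h4 : ∀ a : Module.End K (Z ι K), a + a = 0 := fun a => by
    rw [← two_smul K, CharTwo.two_eq_zero, zero_smul]
  have h5 : ∀ a : Module.End K (Z ι K), -a = a := fun a => neg_eq_of_add_eq_zero_right (h4 a)
  rw [sub_eq_add_neg, h5]
  abel

theorem Pf_th {V s : Finset ι} {x : ι} :
    (Pf V s : Module.End K (Z ι K)) * th x =
      (th x + if x ∈ s then phi V x else 0) * Pf V s := by
  induction s using Finset.induction_on with
  | empty => simp [Pf_empty]
  | insert y s hy ih =>
    rw [Pf_insert V hy, mul_assoc, ih, ← mul_assoc]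
    by_cases hxy : x = y
    · subst hxy
      rw [if_neg hy, if_pos (mem_insert_self _ _), add_zero, fac_th, mul_assoc]
    · have h1 : Commute (fac V y : Module.End K (Z ι K)) (th x) := fac_th_ne V (Ne.symm hxy)
      have h2 : Commute (fac V y : Module.End K (Z ι K)) (phi V x) :=
        comm_phi (fac_comm_f V y) V x
      have h3 : (x ∈ insert y s) ↔ x ∈ s := by simp [hxy]
      simp only [h3]
      by_cases h4 : x ∈ s
      · rw [if_pos h4, mul_add, h1.eq, h2.eq, ← add_mul, mul_assoc]
      · rw [if_neg h4, add_zero, h1.eq, mul_assoc]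

theorem MM_th {V : Finset ι} {x : ι} (hx : x ∈ V) :
    (MM V : Module.End K (Z ι K)) * th x = (th x + phi V x) * MM V := by
  rw [MM, Pf_th, if_pos hx]

theorem MM_list {V : Finset ι} (l : List ι) (hl : ∀ x ∈ l, x ∈ V) :
    MM V (((l.map th).prod : Module.End K (Z ι K)) vac : Z ι K) =
      ((l.map (thO V)).prod : Module.End K (Z ι K)) vac := by
  induction l with
  | nil => exact Pf_vac V V
  | cons x l ih =>
    have h := LinearMap.congr_fun (MM_th (K := K) (hl x List.mem_cons_self))
      (((l.map th).prod : Module.End K (Z ι K)) vac : Z ι K)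
    rw [Module.End.mul_apply, Module.End.mul_apply, ih fun y hy => hl y (List.mem_cons_of_mem _ hy),
      ← thO_eq] at h
    rw [List.map_cons, List.prod_cons, Module.End.mul_apply, h, List.map_cons, List.prod_cons,
      Module.End.mul_apply]

/-- The change of coordinates maps `eta` to `etaE`. -/
theorem MM_eta (V : Finset ι) (m : ℕ) : MM V (eta V m : Z ι K) = etaE V m := by
  rw [eta_eq_sum, map_sum, etaE]
  refine sum_congr rfl fun A hA => ?_
  rw [MM_list _ fun x hx => (mem_powersetCard.1 hA).1 ((mem_sort _).1 hx), thA]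

/-- the image of the block element in the plain coordinates -/
theorem MM_TS_β (V S : Finset ι) (b : ℕ) :
    MM V ((TS K S).val (β K V b)) = D V ((TS K S).val (etaE V (2 * b + 1))) := by
  have h1 := LinearMap.congr_fun (AA_MM (TS K S) V).eq (β K V b)
  rw [Module.End.mul_apply, Module.End.mul_apply] at h1
  rw [← h1, β_eq]
  have h2 := LinearMap.congr_fun (D_MM (K := K) V V).eq (eta V (2 * b + 1))
  rw [Module.End.mul_apply, Module.End.mul_apply] at h2
  rw [← h2, MM_eta]
  exact LinearMap.congr_fun (AA_D (TS K S) V).eq (etaE V (2 * b + 1))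

theorem D_mul_D (s : Finset ι) : (D s : Module.End K (Z ι K)) * D s = 0 := by
  unfold D
  induction s using Finset.induction_on with
  | empty => simp
  | insert a s ha ih =>
    rw [sum_insert ha]
    have hc : Commute (f a * d a : Module.End K (Z ι K)) (∑ z ∈ s, f z * d z) :=
      Commute.sum_right _ _ _ fun z _ => Commute.mul_left
        ((f_comm a z).mul_right (f_d_comm a z)) ((f_d_comm z a).symm.mul_right (d_comm a z))
    have h1 : (f a * d a : Module.End K (Z ι K)) * (f a * d a) = 0 := by
      rw [mul_assoc, ← mul_assoc (d a), ← (f_d_comm a a).eq, mul_assoc (f a) (d a), d_sq,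
        mul_zero, mul_zero]
    rw [mul_add, add_mul, add_mul, ih, h1, hc.eq]
    rw [zero_add, add_zero, end_add_self]

theorem D_TS_β (V S : Finset ι) (b : ℕ) : D V ((TS K S).val (β K V b)) = 0 := by
  have h1 := LinearMap.congr_fun (AA_D (TS K S) V).eq (β K V b)
  rw [Module.End.mul_apply, Module.End.mul_apply] at h1
  have h2 : D V (D V (eta V (2 * b + 1) : Z ι K)) = 0 := by
    exact LinearMap.congr_fun (D_mul_D (K := K) V) (eta V (2 * b + 1))
  rw [← h1, β_eq, h2, map_zero]

/-- **The near values** of the block element in the coordinates `ε_x, f_x`. -/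
theorem near_value {V S : Finset ι} {l : List (ι × ι)} {b m : ℕ} (hl : NC V l) (hS : S ⊆ V)
    (hb : l.length + m = b) {X : Finset ι} (hX : X ⊆ rest V l) (hXc : X.card = 2 * m + 1)
    {x : ι} (hx : x ∈ X) :
    D81877X.cal l (D V ((TS K S).val (etaE V (2 * b + 1)))) (X.erase x) {x} = val K S l := by
  rw [← conl_eq_cal, ← MM_TS_β]
  exact conl_MM_TS hl hS (D_TS_β V S b) hb hX hXc hx

end D81877NE
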