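import Pool.Agent.Lib.MP_d81877_alN.Coord
import Pool.Agent.Lib.MP_d81877_alN.Bridge
import Pool.Agent.Lib.MP_d81877_alG.Near
import Pool.Agent.Lib.MP_d81877_alX.Glue

/-!
# MP_d81877_al, part D, [N]: the near values in the coordinates `ε_x, f_x`

* `conl_MM` : the iterated contraction of `MM V u` (for `D V u = 0`) has the same trace functional
  as the iterated plain contraction of `u`.
-/

namespace D81877N

open Finset D81877ZF D81877Z D81877G D81877C

set_option linter.unusedSectionVars false

variable {ι : Type*} [LinearOrder ι] {K : Type*} [Field K]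

theorem conl_eq_cal (l : List (ι × ι)) : ∀ z : Z ι K, conl l z = D81877X.cal l z := by
  induction l with
  | nil => intro z; rfl
  | cons p l ih => intro z; rw [conl_cons, ih]; rfl

theorem con_eq_ct {x y : ι} (u : Z ι K) {A B : Finset ι}
    (h : ¬ (x ∈ A ∨ y ∈ A ∨ x ∈ B ∨ y ∈ B)) : con x y u A B = ct x y u A B := by
  rw [ct_apply, if_neg h, con]
  ring

theorem adj_nb {V : Finset ι} {x y : ι} (h : Adj V x y) : Nb V x y := by
  obtain ⟨hx, hy, hxy, h⟩ := h
  exact ⟨hx, hy, hxy, h⟩

theorem cadj_eq_ct {x y : ι} (hxy : x ≠ y) :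
    (cadj x y : Module.End K (Z ι K)) = ct x y := by
  ext u A B
  simp only [cadj, Module.End.mul_apply, LinearMap.add_apply, off_apply, ct_apply]
  split_ifs with h
  · rfl
  · simp only [not_or] at h
    obtain ⟨h1, h2, h3, h4⟩ := h
    simp only [Pi.add_apply, d_apply, g_apply, h1, h2, h3, h4, if_false, mem_insert, hxy.symm,
      or_self]
    rw [insert_comm y x A]
    ring

variable [CharP K 2]

/-- The iterated contraction in both coordinates. -/
theorem conl_MM (l : List (ι × ι)) : ∀ (V : Finset ι) (u : Z ι K), NC V l → D V u = 0 →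
    ∀ (X : Finset ι), X ⊆ rest V l → ∀ x ∈ X,
      conl l (MM V u) (X.erase x) {x} = nZ (X.erase x) x l u := by
  induction l with
  | nil =>
    intro V u _ hu X _ x _
    rw [conl_nil, nZ_nil, MM_single hu]
  | cons p l ih =>
    intro V u h hu X hX x hx
    obtain ⟨hp, hl⟩ := nc_cons.1 h
    rw [rest_cons] at hX
    have hnb := adj_nb hp
    have h1 : ct p.1 p.2 (MM V u) = MM ((V.erase p.1).erase p.2) (ct p.1 p.2 u) := by
      rw [← cadj_eq_ct hnb.ne, ← cz_eq_cadj hnb, cz_MM hnb]
    have h2 : D ((V.erase p.1).erase p.2) (ct p.1 p.2 u) = 0 := by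
      have := LinearMap.congr_fun (cadj_D (K := K) hp.1 hp.2.1 hnb.ne) u
      rw [Module.End.mul_apply, Module.End.mul_apply, hu, map_zero] at this
      rw [← cadj_eq_ct hnb.ne, ← this]
    have hsub : X ⊆ (V.erase p.1).erase p.2 := hX.trans (filter_subset _ _)
    rw [conl_cons, nZ_cons, ← ih _ _ hl h2 X hX x hx, ← h1]
    refine conl_congr (W := (V.erase p.1).erase p.2) l hl.good.2 ?_ _ _
      ((erase_subset _ _).trans hsub) (singleton_subset_iff.2 (hsub hx))
    intro A B hA hB
    refine con_eq_ct _ ?_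
    rintro (h | h | h | h)
    · have := hA h; simp at this
    · have := hA h; simp at this
    · have := hB h; simp at this
    · have := hB h; simp at this

/-- **The near values** in the coordinates `ε_x, f_x`. -/
theorem conl_MM_TS {V S : Finset ι} {l : List (ι × ι)} {b m : ℕ} (hl : NC V l) (hS : S ⊆ V)
    (hD : D V ((TS K S).val (β K V b)) = 0) (hb : l.length + m = b) {X : Finset ι}
    (hX : X ⊆ rest V l) (hXc : X.card = 2 * m + 1) {x : ι} (hx : x ∈ X) :
    conl l (MM V ((TS K S).val (β K V b))) (X.erase x) {x} = val K S l := by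
  rw [conl_MM l V _ hl hD X hX x hx]
  refine nZ_TS (notMem_erase x X) l V S b hl hS ((erase_subset _ _).trans hX) (hX hx) ?_
  rw [card_erase_of_mem hx, hXc]
  omega

end D81877N
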