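import Pool.Agent.Lib.MP_d81877_alN.Sym
import Pool.Agent.Lib.MP_d81877_alN.Near
import Pool.Agent.Lib.MP_d81877_alZL.Link

/-!
# MP_d81877_al, part D, [N]: the near values of the elements, for the sum of the chain potentials

`MM V (eta V m) = etaE V m`, and the values of the iterated contractions of
`D V (TS S (aa V (2b+2)))` for `|V|` even.
-/

namespace D81877N.Sy

open Finset D81877ZF D81877Z D81877G D81877C

set_option linter.unusedSectionVars false

variable {ι : Type*} [LinearOrder ι] {K : Type*} [Field K]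

/-- products of the `th x` at the vacuum -/
theorem thList : ∀ (L : List ι), L.Nodup →
    ((L.map th).prod : Module.End K (Z ι K)) D81877ZL.vac
      = fun A B => if A = L.toFinset ∧ B = ∅ then 1 else 0
  | [], _ => rfl
  | x :: L, h => by
    have hx : x ∉ L := (List.nodup_cons.1 h).1
    rw [List.map_cons, List.prod_cons, Module.End.mul_apply, thList L (List.nodup_cons.1 h).2]
    funext A B
    rw [th_apply, List.toFinset_cons]
    have hx' : x ∉ L.toFinset := fun h' => hx (List.mem_toFinset.1 h')
    by_cases hA : x ∈ A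
    · rw [if_pos hA]
      have : A.erase x = L.toFinset ↔ A = insert x L.toFinset := by
        constructor
        · intro h1; rw [← h1, insert_erase hA]
        · intro h1; rw [h1, erase_insert hx']
      simp only [this]
    · rw [if_neg hA, if_neg]
      rintro ⟨h1, _⟩
      exact hA (h1 ▸ mem_insert_self _ _)

theorem eta_eq_sum (V : Finset ι) (m : ℕ) :
    (eta V m : Z ι K) = ∑ A ∈ V.powersetCard m,
      (((A.sort (· ≥ ·)).map th).prod : Module.End K (Z ι K)) D81877ZL.vac := by
  funext A B
  rw [Finset.sum_apply, Finset.sum_apply]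
  have h1 : ∀ C ∈ V.powersetCard m,
      ((((C.sort (· ≥ ·)).map th).prod : Module.End K (Z ι K)) D81877ZL.vac) A B
        = if A = C ∧ B = ∅ then 1 else 0 := by
    intro C _
    rw [thList _ (Finset.sort_nodup _ _), Finset.sort_toFinset]
  rw [sum_congr rfl h1]
  unfold eta
  by_cases hB : B = ∅
  · simp only [hB, and_true, true_and]
    rw [Finset.sum_ite_eq]
  · simp [hB]

variable [CharP K 2]

theorem MM_list {V : Finset ι} : ∀ (L : List ι), (∀ x ∈ L, x ∈ V) →
    (MM V : Module.End K (Z ι K)) * (L.map th).prod = (L.map (D81877ZL.thO V)).prod * MM V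
  | [], _ => by simp
  | x :: L, h => by
    have e : (th x + phi V x : Module.End K (Z ι K)) = D81877ZL.thO V x := by
      unfold phi D81877ZL.thO
      rw [add_assoc]
    rw [List.map_cons, List.map_cons, List.prod_cons, List.prod_cons, ← mul_assoc,
      MM_th (h x List.mem_cons_self), e, mul_assoc,
      MM_list L (fun y hy => h y (List.mem_cons_of_mem _ hy)), mul_assoc]

theorem MM_vac (V : Finset ι) : MM V (D81877ZL.vac : Z ι K) = D81877ZL.vac := MM_vac0 V

/-- the change of coordinates on the elementary symmetric vectors -/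
theorem MM_eta' (V : Finset ι) (m : ℕ) :
    MM V (eta V m : Z ι K) = D81877ZL.etaE V m := by
  rw [eta_eq_sum, map_sum]
  unfold D81877ZL.etaE D81877ZL.thA
  refine sum_congr rfl fun A hA => ?_
  have h1 := LinearMap.congr_fun (MM_list (K := K) (V := V) (A.sort (· ≥ ·)) fun x hx =>
    (mem_powersetCard.1 hA).1 ((Finset.mem_sort _).1 hx)) D81877ZL.vac
  rw [Module.End.mul_apply, Module.End.mul_apply, MM_vac] at h1
  exact h1

/-- what commutes with all `f y`, `d y` commutes with the ring generated by them -/
theorem comm_AA {a : Module.End K (Z ι K)} (ha : ∀ y, Commute a (f y))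
    (ha' : ∀ y, Commute a (d y)) (c : AA ι K) : Commute a c.val := by
  obtain ⟨c, hc⟩ := c
  show Commute a c
  induction hc using Algebra.adjoin_induction with
  | mem c hc =>
    rcases hc with ⟨x, rfl⟩ | ⟨x, rfl⟩
    · exact ha x
    · exact ha' x
  | algebraMap r => exact Algebra.commute_algebraMap_right r a
  | add b c _ _ hb hc => exact hb.add_right hc
  | mul b c _ _ hb hc => exact hb.mul_right hc

theorem MM_AA (V : Finset ι) (c : AA ι K) : Commute (MM V : Module.End K (Z ι K)) c.val :=
  comm_AA (fun y => (f_MM V y).symm) (fun y => (d_MM V y).symm) c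

theorem D_AA (V : Finset ι) (c : AA ι K) : Commute (D V : Module.End K (Z ι K)) c.val := by
  refine comm_AA (fun y => ?_) (fun y => ?_) c
  · unfold D
    exact Commute.sum_left _ _ _ fun x _ => (f_comm x y).mul_left (f_d_comm y x).symm
  · unfold D
    exact Commute.sum_left _ _ _ fun x _ => (f_d_comm x y).mul_left (d_comm x y)

theorem D_D_zero (V : Finset ι) : (D V : Module.End K (Z ι K)) * D V = 0 := by
  unfold D
  induction V using Finset.induction_on with
  | empty => simp
  | insert a s ha ih =>
    rw [sum_insert ha]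
    have hc : Commute (f a * d a : Module.End K (Z ι K)) (∑ z ∈ s, f z * d z) :=
      Commute.sum_right _ _ _ fun z _ =>
        ((f_comm a z).mul_right (f_d_comm a z)).mul_left
          (((f_d_comm z a).symm).mul_right (d_comm a z))
    have hz : (f a * d a : Module.End K (Z ι K)) * (f a * d a) = 0 := by
      rw [mul_assoc, ← mul_assoc (d a), ← (f_d_comm a a).eq, mul_assoc, d_sq, mul_zero, mul_zero]
    rw [mul_add, add_mul, add_mul, ih, hz, hc.eq, zero_add, add_zero]
    exact end_add_self _

/-- the vacuum vector of level `b` in the plain coordinates -/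
theorem D_eta (V : Finset ι) (b : ℕ) : D V (eta V (2 * b + 1) : Z ι K) = β K V b := by
  funext A B
  rw [β_apply]
  unfold D
  rw [LinearMap.sum_apply, Finset.sum_apply, Finset.sum_apply]
  have h1 : ∀ x ∈ V, (f x * d x : Module.End K (Z ι K)) (eta V (2 * b + 1) : Z ι K) A B
      = if x ∉ A ∧ B = {x} ∧ A ⊆ V ∧ A.card = 2 * b then 1 else 0 := by
    intro x hx
    rw [Module.End.mul_apply, f_apply]
    by_cases hB : x ∈ B
    · rw [if_pos hB, d_apply]
      by_cases hA : x ∈ A
      · rw [if_pos hA, if_neg (fun h => h.1 hA)]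
      · rw [if_neg hA]
        unfold eta
        have e1 : B.erase x = ∅ ↔ B = {x} := by
          constructor
          · intro h; rw [← insert_erase hB, h]; rfl
          · intro h; rw [h, erase_singleton]
        have e2 : insert x A ∈ V.powersetCard (2 * b + 1) ↔ (A ⊆ V ∧ A.card = 2 * b) := by
          rw [mem_powersetCard, insert_subset_iff, card_insert_of_notMem hA]
          constructor
          · rintro ⟨⟨_, h1⟩, h2⟩; exact ⟨h1, by omega⟩
          · rintro ⟨h1, h2⟩; exact ⟨⟨hx, h1⟩, by omega⟩
        simp only [e1, e2, hA, not_false_eq_true, true_and]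
    · rw [if_neg hB, if_neg]
      rintro ⟨_, rfl, _⟩
      exact hB (mem_singleton_self x)
  rw [sum_congr rfl h1]
  by_cases h : A ⊆ V ∧ A.card = 2 * b ∧ ∃ x ∈ V, x ∉ A ∧ B = {x}
  · obtain ⟨hA, hc, x, hx, hxA, rfl⟩ := h
    rw [if_pos ⟨hA, hc, x, hx, hxA, rfl⟩, sum_eq_single_of_mem x hx]
    · rw [if_pos ⟨hxA, rfl, hA, hc⟩]
    · intro y _ hyx
      rw [if_neg]
      rintro ⟨_, h2, _⟩
      exact hyx (singleton_injective h2).symm
  · rw [if_neg h]
    refine sum_eq_zero fun x hx => if_neg ?_
    rintro ⟨h1, h2, h3, h4⟩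
    exact h ⟨h3, h4, x, hx, h1, h2⟩

/-- the block vector in the coordinates `ε_x, f_x` -/
theorem D_TS_aa {V : Finset ι} (hE : Even V.card) (S : Finset ι) (b : ℕ) :
    D V ((TS K S).val (D81877ZL.aa V (2 * b + 2))) = MM V ((TS K S).val (β K V b)) := by
  have e1 := LinearMap.congr_fun (MM_AA (K := K) V (TS K S)).eq (eta V (2 * b + 1))
  have e2 := LinearMap.congr_fun (D_MM (K := K) V V).eq ((TS K S).val (eta V (2 * b + 1)))
  have e3 := LinearMap.congr_fun (D_AA (K := K) V (TS K S)).eq (eta V (2 * b + 1))
  simp only [Module.End.mul_apply] at e1 e2 e3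
  rw [D81877ZL.aa_even V hE, ← MM_eta', ← e1, e2, e3, D_eta]

/-- **The near values of the elements.** -/
theorem hval {V S : Finset ι} (hE : Even V.card) {l : List (ι × ι)} {b m : ℕ} (hl : NC V l)
    (hS : S ⊆ V) (hb : l.length + m = b) {X : Finset ι} (hX : X ⊆ rest V l)
    (hXc : X.card = 2 * m + 1) {x : ι} (hx : x ∈ X) :
    conl l (D V ((TS K S).val (D81877ZL.aa V (2 * b + 2)))) (X.erase x) {x} = val K S l := by
  rw [D_TS_aa hE]
  refine conl_MM_TS hl hS ?_ hb hX hXc hx
  have e3 := LinearMap.congr_fun (D_AA (K := K) V (TS K S)).eq (D V (eta V (2 * b + 1)))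
  have e4 := LinearMap.congr_fun (D_D_zero (K := K) V) (eta V (2 * b + 1))
  simp only [Module.End.mul_apply] at e3 e4
  rw [← D_eta, e3, e4, LinearMap.zero_apply, map_zero]

/-- the same in the notation of the assembly -/
theorem hval_cal {V S : Finset ι} (hE : Even V.card) {l : List (ι × ι)} {b m : ℕ} (hl : NC V l)
    (hS : S ⊆ V) (hb : l.length + m = b) {X : Finset ι} (hX : X ⊆ rest V l)
    (hXc : X.card = 2 * m + 1) {x : ι} (hx : x ∈ X) :
    D81877X.cal l (D V ((TS K S).val (D81877ZL.aa V (2 * b + 2)))) (X.erase x) {x}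
      = val K S l := by
  rw [← conl_eq_cal]
  exact hval hE hl hS hb hX hXc hx

end D81877N.Sy

namespace D81877N

open Finset D81877ZF D81877Z D81877G D81877C

variable {ι : Type*} [LinearOrder ι] {K : Type*} [Field K] [CharP K 2]

/-- **The near values of the elements.** -/
theorem hval {V S : Finset ι} (hE : Even V.card) {l : List (ι × ι)} {b m : ℕ} (hl : NC V l)
    (hS : S ⊆ V) (hb : l.length + m = b) {X : Finset ι} (hX : X ⊆ rest V l)
    (hXc : X.card = 2 * m + 1) {x : ι} (hx : x ∈ X) :
    conl l (D V ((TS K S).val (D81877ZL.aa V (2 * b + 2)))) (X.erase x) {x} = val K S l :=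
  Sy.hval hE hl hS hb hX hXc hx

/-- **The near values of the elements**, in the notation of the assembly. -/
theorem hval_cal {V S : Finset ι} (hE : Even V.card) {l : List (ι × ι)} {b m : ℕ} (hl : NC V l)
    (hS : S ⊆ V) (hb : l.length + m = b) {X : Finset ι} (hX : X ⊆ rest V l)
    (hXc : X.card = 2 * m + 1) {x : ι} (hx : x ∈ X) :
    D81877X.cal l (D V ((TS K S).val (D81877ZL.aa V (2 * b + 2)))) (X.erase x) {x}
      = val K S l :=
  Sy.hval_cal hE hl hS hb hX hXc hx

end D81877N
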