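import Pool.Agent.Lib.MP_d81877_alN.Bridge
import Pool.Agent.Lib.MP_d81877_alP.Bridge
import Pool.Agent.Lib.MP_d81877_alX.Glue
import Pool.Agent.Lib.MP_d81877_alT2.Main

/-!
# MP_d81877_al, part D: the bridge `PN` of the assembly, from the adjacent contraction (T2a)
-/

namespace D81877N

open Finset Function D81877C D81877G MP_d81877_alI MP_d81877_alP

set_option linter.unusedSectionVars false

/-- (T2a) for the map `D81877M.p` -/
def T2a (ι K : Type*) [LinearOrder ι] [Field K] : Prop :=
  ∀ (W : Finset ι) (b : ℕ) (v : WW ι K), 1 ≤ b → Dm W b v → ∀ i k : ι, D81877M.Adj W i k →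
    ∀ A B : Finset ι, A ⊆ W \ {i, k} → B ⊆ W \ {i, k} →
      D81877M.p (W \ {i, k}) (ctr i k v) A B =
        D81877M.p W v (insert k A) (insert k B) + D81877M.p W v (insert i A) (insert i B) +
          D81877M.p W v (insert i (insert k A)) B + D81877M.p W v (insert i A) (insert k B) +
          D81877M.p W v (insert k A) (insert i B)

theorem hypT2a_of {N : ℕ} {K : Type*} [Field K] (h : T2a (Fin N) K) : HypT2a (Fin N) K := by
  intro W b v hb hv i k hik A B hA hB
  rw [erase_erase_eq] at hA hB ⊢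
  rw [pm_eq_p]
  simp only [con, pm_eq_p]
  exact h W b v hb hv i k hik A B hA hB

theorem cal_eq {ι : Type*} [LinearOrder ι] {K : Type*} [Field K] :
    ∀ (l : List (ι × ι)) (z : D81877ZF.Z ι K), D81877X.cal l z = conl l z
  | [], _ => rfl
  | p :: l, z => cal_eq l (con p.1 p.2 z)

/-- the bridge (N) -/
theorem pn {N : ℕ} {K : Type*} [Field K] [CharP K 2] (h : T2a (Fin N) K) : D81877X.PN N K := by
  intro b m x hN hE hx l hl hlm X hX hXc x0 hx0
  subst hlm
  rw [cal_eq, ← pm_eq_p]
  refine nf_nc (hypT2a_of h) (by simpa using hE) (by simp; omega) ?_ hl ?_ hXc hx0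
  · rw [add_comm]
    exact hx
  · rw [rest_eq]
    exact hX

theorem t2a (ι K : Type*) [LinearOrder ι] [Field K] [CharP K 2] : T2a ι K :=
  fun _ _ _ _ hv _ _ h _ _ hA hB => D81877M.T2a hv h hA hB

/-- the bridge (N), unconditional -/
theorem pn_all (N : ℕ) (K : Type*) [Field K] [CharP K 2] : D81877X.PN N K := pn (t2a _ _)

end D81877N
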