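import Pool.Agent.Lib.MP_d81877_alN.Coord

/-!
# MP_d81877_al, part D, [N]: the change of coordinates on the elementary symmetric vectors

`MM V * th x = (th x + phi V x) * MM V` for `x ∈ V`, and `MM V (eta V n)` is the `n`-th
elementary symmetric operator of the `th x + phi V x` applied to the vacuum.
-/

namespace D81877N.Sy

open Finset D81877ZF D81877Z

set_option linter.unusedSectionVars false

variable {ι : Type*} [LinearOrder ι] {K : Type*} [Field K]

/-- the vacuum -/
def vac0 : Z ι K := fun A B => if A = ∅ ∧ B = ∅ then 1 else 0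

theorem d_vac0 (x : ι) : d x (vac0 : Z ι K) = 0 := by
  funext A B
  rw [d_apply]
  split_ifs with h
  · rfl
  · simp [vac0]

theorem fac_vac0 (V : Finset ι) (x : ι) : fac V x (vac0 : Z ι K) = vac0 := by
  unfold fac
  rw [LinearMap.add_apply, Module.End.one_apply, Module.End.mul_apply, d_vac0, map_zero, add_zero]

theorem Pf_vac0 (V s : Finset ι) : Pf V s (vac0 : Z ι K) = vac0 := by
  induction s using Finset.induction_on with
  | empty => rw [Pf_empty, Module.End.one_apply]
  | insert x s hx ih => rw [Pf_insert V hx, Module.End.mul_apply, ih, fac_vac0]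

theorem MM_vac0 (V : Finset ι) : MM V (vac0 : Z ι K) = vac0 := Pf_vac0 V V

/-- elementary symmetric functions of a family of operators along a list -/
def eL (o : ι → Module.End K (Z ι K)) : List ι → ℕ → Module.End K (Z ι K)
  | _, 0 => 1
  | [], _ + 1 => 0
  | x :: L, n + 1 => eL o L (n + 1) + o x * eL o L n

theorem eL_zero (o : ι → Module.End K (Z ι K)) (L : List ι) : eL o L 0 = 1 := by
  cases L <;> rfl

/-- the sums of the `θ_A`, as elementary symmetric operators -/
theorem eL_th : ∀ (L : List ι) (n : ℕ), L.Nodup →
    eL th L n (vac0 : Z ι K) = eta L.toFinset n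
  | L, 0, _ => by
    rw [eL_zero, Module.End.one_apply]
    funext A B
    simp only [vac0, eta, powersetCard_zero, mem_singleton]
    congr 1
    exact propext and_comm
  | [], n + 1, _ => by
    funext A B
    have : ¬ (B = ∅ ∧ A ∈ (∅ : Finset ι).powersetCard (n + 1)) := by
      rintro ⟨_, h⟩
      obtain ⟨h1, h2⟩ := mem_powersetCard.1 h
      rw [subset_empty.1 h1, card_empty] at h2
      omega
    rw [List.toFinset_nil]
    unfold eta
    rw [if_neg this]
    rfl
  | x :: L, n + 1, h => by
    have hx : x ∉ L := (List.nodup_cons.1 h).1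
    have hL : L.Nodup := (List.nodup_cons.1 h).2
    rw [eL, LinearMap.add_apply, Module.End.mul_apply, eL_th L (n + 1) hL, eL_th L n hL]
    funext A B
    simp only [Pi.add_apply, th_apply, eta, List.toFinset_cons, mem_powersetCard]
    by_cases hA : x ∈ A
    · have h1 : ¬ A ⊆ L.toFinset := fun h' => hx (List.mem_toFinset.1 (h' hA))
      have h2 : (A.erase x ⊆ L.toFinset) ↔ (A ⊆ insert x L.toFinset) := by
        rw [← subset_insert_iff]
      have h3 : (A.erase x).card = n ↔ A.card = n + 1 := by
        rw [card_erase_of_mem hA]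
        have := card_pos.2 ⟨x, hA⟩
        omega
      simp only [hA, if_true, h1, false_and, and_false, if_false, zero_add, h2, h3]
    · have h2 : (A ⊆ L.toFinset) ↔ (A ⊆ insert x L.toFinset) := by
        rw [subset_insert_iff, erase_eq_of_notMem hA]
      simp only [hA, if_false, add_zero, h2]

variable [CharP K 2]

theorem phi_sq (V : Finset ι) (x : ι) :
    (phi V x : Module.End K (Z ι K)) * phi V x = 0 := by
  set W : Module.End K (Z ι K) := ∑ y ∈ V.filter (fun y => x < y), f y with hW
  have hWW : W * W = 0 := sum_f_sq _
  have hc : Commute W (f x) := Commute.sum_left _ _ _ fun z _ => f_comm z x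
  have : (phi V x : Module.End K (Z ι K))
      = W + ((V.filter (fun y => y < x)).card : K) • f x := rfl
  rw [this, add_mul, mul_add, mul_add, hWW, smul_mul_assoc, smul_mul_assoc, mul_smul_comm,
    mul_smul_comm, f_sq, smul_zero, smul_zero, add_zero, zero_add, hc.eq]
  exact end_add_self _

theorem phi_comm_th (V : Finset ι) (x y : ι) :
    Commute (phi V x : Module.End K (Z ι K)) (th y) := by
  unfold phi
  refine Commute.add_left ?_ ((f_th_comm x y).smul_left _)
  exact Commute.sum_left _ _ _ fun z _ => f_th_comm z y

theorem fac_comm_th {V : Finset ι} {x y : ι} (h : x ≠ y) :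
    Commute (fac V x : Module.End K (Z ι K)) (th y) := by
  unfold fac
  exact (Commute.one_left _).add_left ((phi_comm_th V x y).mul_left (d_th_comm h))

/-- the substitution at the site `x` -/
theorem fac_th (V : Finset ι) (x : ι) :
    (fac V x : Module.End K (Z ι K)) * th x = (th x + phi V x) * fac V x := by
  have h1 : (d x : Module.End K (Z ι K)) * th x = 1 + th x * d x := by
    have := d_th_same (K := K) x
    rw [← this, add_assoc, end_add_self, add_zero]
  have h2 : (phi V x : Module.End K (Z ι K)) * th x = th x * phi V x := (phi_comm_th V x x).eq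
  unfold fac
  rw [add_mul, one_mul, mul_assoc, h1, mul_add, mul_one, mul_add, mul_one, add_mul, ← mul_assoc,
    h2, ← mul_assoc (th x), ← mul_assoc (phi V x) (phi V x), phi_sq, zero_mul, add_zero]
  abel

theorem Pf_th (V : Finset ι) {s : Finset ι} {x : ι} (hx : x ∈ s) :
    (Pf V s : Module.End K (Z ι K)) * th x = (th x + phi V x) * Pf V s := by
  have h0 : ∀ {t : Finset ι}, x ∉ t → Commute (Pf V t : Module.End K (Z ι K)) (th x) := by
    intro t
    induction t using Finset.induction_on with
    | empty => intro _; rw [Pf_empty]; exact Commute.one_left _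
    | insert a t ha ih =>
      intro h
      rw [mem_insert, not_or] at h
      rw [Pf_insert V ha]
      exact (fac_comm_th (Ne.symm h.1)).mul_left (ih h.2)
  rw [← insert_erase hx, Pf_insert V (notMem_erase x s), mul_assoc,
    (h0 (notMem_erase x s)).eq, ← mul_assoc, fac_th, mul_assoc]

theorem MM_th {V : Finset ι} {x : ι} (hx : x ∈ V) :
    (MM V : Module.End K (Z ι K)) * th x = (th x + phi V x) * MM V := Pf_th V hx

/-- the substitution on the elementary symmetric operators -/
theorem MM_eL (V : Finset ι) : ∀ (L : List ι) (n : ℕ), (∀ x ∈ L, x ∈ V) →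
    (MM V : Module.End K (Z ι K)) * eL th L n = eL (fun x => th x + phi V x) L n * MM V
  | L, 0, _ => by rw [eL_zero, eL_zero, one_mul, mul_one]
  | [], n + 1, _ => by
    change MM V * 0 = 0 * MM V
    rw [mul_zero, zero_mul]
  | x :: L, n + 1, h => by
    have hx := h x List.mem_cons_self
    have hL : ∀ y ∈ L, y ∈ V := fun y hy => h y (List.mem_cons_of_mem _ hy)
    change MM V * (eL th L (n + 1) + th x * eL th L n) =
      (eL (fun x => th x + phi V x) L (n + 1) +
        (th x + phi V x) * eL (fun x => th x + phi V x) L n) * MM V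
    rw [mul_add, add_mul, MM_eL V L (n + 1) hL, ← mul_assoc, MM_th hx, mul_assoc, MM_eL V L n hL,
      ← mul_assoc]

/-- `MM V (eta V n)` is the elementary symmetric operator of the `th x + phi V x` at the vacuum -/
theorem MM_eta (V : Finset ι) {L : List ι} (hL : L.Nodup) (hV : L.toFinset = V) (n : ℕ) :
    MM V (eta V n : Z ι K) = eL (fun x => th x + phi V x) L n vac0 := by
  have h1 := LinearMap.congr_fun (MM_eL (K := K) V L n
    (fun x hx => by rw [← hV]; exact List.mem_toFinset.2 hx)) vac0
  rw [Module.End.mul_apply, Module.End.mul_apply, MM_vac0, eL_th L n hL, hV] at h1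
  exact h1

end D81877N.Sy
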